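import Pool.Agent.H817.SV.Main

/-!
# Simplicial volume of affine manifolds with an invariant plane field

For closed affine manifolds with parallel volume which are quotients of a domain: if there is a
parallel plane field with solvable transverse holonomy, then the group is virtually solvable and
the simplicial volume is zero.
-/

set_option autoImplicit false

open Pool.Agent.W689.Mk

namespace Pool.Agent.Results.MP_f22a19_gt.InvariantPlanes

/-- the standard simplex of dimension `k` -/
abbrev Simplex (k : ℕ) : Type := stdSimplex ℝ (Fin (k + 1))

/-- real singular chains of degree `k` of the space `M` -/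
abbrev Chain (k : ℕ) (M : Type) [TopologicalSpace M] : Type := C(Simplex k, M) →₀ ℝ

/-- the inclusion of the face opposite to the vertex `i` -/
noncomputable def face {k : ℕ} (i : Fin (k + 2)) : C(Simplex k, Simplex (k + 1)) :=
  ⟨stdSimplex.map i.succAbove, stdSimplex.continuous_map _⟩

/-- the boundary of singular chains -/
noncomputable def bdry {M : Type} [TopologicalSpace M] (k : ℕ) : Chain (k + 1) M →ₗ[ℝ] Chain k M :=
  Finsupp.linearCombination ℝ fun σ =>
    ∑ i : Fin (k + 2), ((-1 : ℝ) ^ (i : ℕ)) • Finsupp.single (σ.comp (face i)) 1

/-- the `ℓ¹`-norm of a singular chain: the sum of the absolute values of its coefficients -/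
noncomputable def norm1 {M : Type} [TopologicalSpace M] {k : ℕ} (c : Chain k M) : ℝ :=
  ∑ σ ∈ c.support, |c σ|

/-- The `ℓ¹`-seminorm of the homology class of a cycle `z`: the infimum of the norms of the
homologous cycles. For a fundamental cycle of a closed oriented manifold this is the simplicial
volume. -/
noncomputable def seminorm1 {k : ℕ} {M : Type} [TopologicalSpace M] (z : Chain (k + 1) M) : ℝ :=
  ⨅ c : Chain (k + 2) M, norm1 (z + bdry (k + 1) c)

section
variable {Γ E : Type} [Group Γ] [NormedAddCommGroup E] [NormedSpace ℝ E]

/-- the action of `H` by affine maps of `E / W` factors through a solvable group: the affine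
holonomy of some derived subgroup of `H` acts trivially on `E / W` -/
def SolvableModulo (hol : Γ →* (E ≃ᵃ[ℝ] E)) (H : Subgroup Γ) (W : Submodule ℝ E) : Prop :=
  ∃ j : ℕ, ∀ γ ∈ derivedSeries H j, ∀ v : E, hol (γ : Γ) v - v ∈ W

/-- the linear holonomy of `H` preserves the subspace `W` -/
def Preserves (hol : Γ →* (E ≃ᵃ[ℝ] E)) (H : Subgroup Γ) (W : Submodule ℝ E) : Prop :=
  ∀ γ ∈ H, ∀ v ∈ W, (hol γ).linear v ∈ W

end

/-- Let `M = X / Γ` be a closed affine manifold with parallel volume: `X` is a connected cover with
its group `Γ` acting freely, `dev` the developing map and `hol` the holonomy; suppose that `dev` is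
injective (`M` is a quotient of a domain of the affine space `E`). Suppose that the linear holonomy
of some subgroup `H` of finite index preserves a plane `W`, and that the action of `H` on the affine
space `E / W` is solvable; there is no condition on the action on the plane `W`. Then the group `Γ`
is virtually solvable, and the `ℓ¹`-seminorm of all real homology classes of `M` of positive degree
is zero; in particular the simplicial volume of `M` is zero. -/
theorem result (X Γ E : Type) [NormedAddCommGroup E] [NormedSpace ℝ E]
    [FiniteDimensional ℝ E] [TopologicalSpace X] [T2Space X] [SecondCountableTopology X]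
    [ConnectedSpace X] [Group Γ] [MulAction Γ X] (dev : X → E) (hol : Γ →* (E ≃ᵃ[ℝ] E))
    (D : AffData X Γ E dev hol) (hfree : ∀ (γ : Γ) (x : X), γ • x = x → γ = 1)
    (hinj : Function.Injective dev) (H : Subgroup Γ) (hH : H.FiniteIndex) (W : Submodule ℝ E)
    (hW2 : Module.finrank ℝ W = 2) (_hinv : Preserves hol H W) (hW : SolvableModulo hol H W) :
    (∃ A : Subgroup Γ, A.FiniteIndex ∧ Group.IsSolvable A) ∧
      ∀ (k : ℕ) (z : Chain (k + 1) (MulAction.orbitRel.Quotient Γ X)), bdry k z = 0 →
        seminorm1 z = 0 := by
  obtain ⟨j, hj⟩ := hW
  have key := Pool.Agent.H817.SV.plane_case X Γ E dev hol D hinj H hH W hW2 j hj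
  exact Pool.Agent.N520.SV.solv_zero X Γ E dev hol D hfree key.1 ⟨H, hH, key.2⟩

end Pool.Agent.Results.MP_f22a19_gt.InvariantPlanes
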