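import Pool.Agent.H817.SV.Main
import Pool.Agent.H817.PL.Cmp
import Pool.Agent.H817.PL.Scal
import Pool.Agent.H817.PL.Tr
import Pool.Agent.H817.PL.C21

/-!
# Simplicial volume of the quotients of domains of the affine 3-space

All closed affine manifolds of dimension three with parallel volume which are quotients of domains
of the affine space have a virtually solvable group and zero simplicial volume.

By the theorem `ThreeDimensionalDomainQuotients` on the page of the Markus conjecture (MP_df2bd8_gt)
these manifolds are complete. A complete closed affine 3-manifold with parallel volume has virtually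
reducible linear holonomy (elements with a fixed point in the affine space have finite order, there
are no equivariant maps to the affine space with two-dimensional image, and a discrete cocompact
group with a translation and strongly irreducible linear holonomy does not exist); the reducible case
was treated before.
-/

set_option autoImplicit false

open Pool.Agent.W689.Mk

namespace Pool.Agent.Results.MP_f22a19_gt.ThreeDimensionalDomainQuotients

/-- the standard simplex of dimension `k` -/
abbrev Simplex (k : ℕ) : Type := stdSimplex ℝ (Fin (k + 1))

/-- real singular chains of degree `k` of the space `M` -/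
abbrev Chain (k : ℕ) (M : Type) [TopologicalSpace M] : Type := C(Simplex k, M) →₀ ℝ

/-- the inclusion of the face opposite to the vertex `i` -/
noncomputable def face {k : ℕ} (i : Fin (k + 2)) : C(Simplex k, Simplex (k + 1)) :=
  ⟨stdSimplex.map i.succAbove, stdSimplex.continuous_map _⟩

/-- the boundary of singular chains -/
noncomputable def bdry {M : Type} [TopologicalSpace M] (k : ℕ) : Chain (k + 1) M →ₗ[ℝ] Chain k M :=
  Finsupp.linearCombination ℝ fun σ =>
    ∑ i : Fin (k + 2), ((-1 : ℝ) ^ (i : ℕ)) • Finsupp.single (σ.comp (face i)) 1

/-- the `ℓ¹`-norm of a singular chain: the sum of the absolute values of its coefficients -/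
noncomputable def norm1 {M : Type} [TopologicalSpace M] {k : ℕ} (c : Chain k M) : ℝ :=
  ∑ σ ∈ c.support, |c σ|

/-- The `ℓ¹`-seminorm of the homology class of a cycle `z`: the infimum of the norms of the
homologous cycles. For a fundamental cycle of a closed oriented manifold this is the simplicial
volume. -/
noncomputable def seminorm1 {k : ℕ} {M : Type} [TopologicalSpace M] (z : Chain (k + 1) M) : ℝ :=
  ⨅ c : Chain (k + 2) M, norm1 (z + bdry (k + 1) c)

/-- Let `M = X / Γ` be a closed affine manifold of dimension three with parallel volume: `X` is a
connected cover with its group `Γ` acting freely, `dev` the developing map and `hol` the holonomy;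
suppose that `dev` is injective (`M` is a quotient of a domain of the affine space `E`). There is no
other condition. Then the group `Γ` is virtually solvable, and the `ℓ¹`-seminorm of all real homology
classes of `M` of positive degree is zero; in particular the simplicial volume of `M` is zero. -/
theorem result (X Γ E : Type) [NormedAddCommGroup E] [NormedSpace ℝ E]
    [FiniteDimensional ℝ E] [TopologicalSpace X] [T2Space X] [SecondCountableTopology X]
    [ConnectedSpace X] [Group Γ] [MulAction Γ X] (dev : X → E) (hol : Γ →* (E ≃ᵃ[ℝ] E))
    (D : AffData X Γ E dev hol) (hfree : ∀ (γ : Γ) (x : X), γ • x = x → γ = 1)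
    (hinj : Function.Injective dev) (h3 : Module.finrank ℝ E = 3) :
    (∃ A : Subgroup Γ, A.FiniteIndex ∧ Group.IsSolvable A) ∧
      ∀ (k : ℕ) (z : Chain (k + 1) (MulAction.orbitRel.Quotient Γ X)), bdry k z = 0 →
        seminorm1 z = 0 := by
  have hcomp : IsHomeomorph dev := Pool.Agent.H817.PL.complete3 D hinj h3
  have hirr := Pool.Agent.H817.PL.not_irr Pool.Agent.H817.PL.t_scal Pool.Agent.H817.PL.t_tr
    Pool.Agent.H817.PL.t_c21 D h3 hcomp
  unfold Pool.Agent.H817.PH.StrIrr at hirr
  push Not at hirr
  obtain ⟨H, hH, W, hinv, hW0, hW1⟩ := hirr
  have hp : 0 < Module.finrank ℝ W :=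
    Nat.pos_of_ne_zero fun h => hW0 (Submodule.finrank_eq_zero.1 h)
  have hl : Module.finrank ℝ W < 3 := by
    rw [← h3]
    exact Submodule.finrank_lt hW1
  have key : IsHomeomorph dev ∧ Group.IsSolvable (H.map hol) := by
    have h12 : Module.finrank ℝ W = 1 ∨ Module.finrank ℝ W = 2 := by omega
    rcases h12 with h1 | h2
    · exact Pool.Agent.H817.SV.line_case X Γ E dev hol D hinj H hH h3 W h1 hinv
    · exact Pool.Agent.H817.SV.plane_case X Γ E dev hol D hinj H hH W h2 2
        (Pool.Agent.H817.SV.solv_mod Γ E hol H h3 W h2 hinv)
  exact Pool.Agent.N520.SV.solv_zero X Γ E dev hol D hfree key.1 ⟨H, hH, key.2⟩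

end Pool.Agent.Results.MP_f22a19_gt.ThreeDimensionalDomainQuotients
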